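import Pool.Agent.H341.FS.FreiC

set_option autoImplicit false

/-!
# Freiheitssatz for one-relator products with left-orderable coefficient groups
-/

namespace Pool.Agent.Results.MP_a38735_al.LeftOrderableCoefficients

open Monoid

universe u

/-- a group is left-orderable if it has a linear order that is invariant under left multiplication -/
def LeftOrderable (G : Type u) [Group G] : Prop :=
  ∃ lo : LinearOrder G, ∀ a b c : G, lo.lt a b → lo.lt (c * a) (c * b)

theorem result : ∀ (A B : Type u) [Group A] [Group B] (A₀ : Subgroup A) (B₀ : Subgroup B),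
    LeftOrderable A₀ → LeftOrderable B₀ →
    ∀ r : Coprod A B,
      r ∈ A₀.map (Coprod.inl : A →* Coprod A B) ⊔ B₀.map (Coprod.inr : B →* Coprod A B) →
      (∀ g : Coprod A B, ∀ a : A, r ≠ g * Coprod.inl a * g⁻¹) →
      (∀ g : Coprod A B, ∀ b : B, r ≠ g * Coprod.inr b * g⁻¹) →
      ∀ m : ℕ, 1 ≤ m →
        Function.Injective
          ((QuotientGroup.mk' (Subgroup.normalClosure ({r ^ m} : Set (Coprod A B)))).comp
            (Coprod.inl : A →* Coprod A B)) ∧
        Function.Injective
          ((QuotientGroup.mk' (Subgroup.normalClosure ({r ^ m} : Set (Coprod A B)))).comp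
            (Coprod.inr : B →* Coprod A B)) ∧
        ((∀ s : Coprod A B, ∀ k : ℕ, 2 ≤ k → s ^ k ≠ r) →
          orderOf (QuotientGroup.mk' (Subgroup.normalClosure ({r ^ m} : Set (Coprod A B))) r) = m) := by
  intro A B _ _ A₀ B₀ hA hB r hr hrA hrB m hm
  exact Pool.Agent.H341.FS.frei_full A B A₀ B₀ hA hB r hr hrA hrB m hm

end Pool.Agent.Results.MP_a38735_al.LeftOrderableCoefficients
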